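import Pool.Agent.Y317.LI.Pt

/-! # Project LI: families of conics of odd degree (`S_THREE`) -/

set_option autoImplicit false

namespace Pool.Agent.Y317.LI

open MvPolynomial Pool.Agent.TH314.PD IntermediateField Module Pool.Agent.Y201.LI
  Pool.Agent.Y929.LI

noncomputable section

/-- transport of the degree over the field of ratios along an isomorphism -/
lemma finrank_map {M κ : Type} [Field M] [Field κ] [Algebra ℂ M] [Algebra ℂ κ] {r : ℕ}
    (e : M ≃ₐ[ℂ] κ) (w : Fin r → M) :
    finrank (ratioField fun i => e (w i)) κ = finrank (ratioField w) M := by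
  have h1 : (ratioField w).map e.toAlgHom = ratioField fun i => e (w i) := by
    unfold ratioField
    rw [IntermediateField.adjoin_map]
    congr 1
    ext y
    constructor
    · rintro ⟨_, ⟨i, j, rfl⟩, rfl⟩
      exact ⟨i, j, map_div₀ e _ _⟩
    · rintro ⟨i, j, rfl⟩
      exact ⟨_, ⟨i, j, rfl⟩, map_div₀ e _ _⟩
  rw [← h1]
  symm
  refine Algebra.finrank_eq_of_equiv_equiv
    (IntermediateField.intermediateFieldMap e (ratioField w)).toRingEquiv e.toRingEquiv ?_
  ext a
  rfl

/-- a coordinate of maximal absolute value -/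
lemma exists_max {M : Type} [Field M] (O : ValuationSubring M) {r : ℕ} (x : Fin r → M)
    (hx : ∃ i, x i ≠ 0) : ∃ j, x j ≠ 0 ∧ ∀ i, x i / x j ∈ O := by
  obtain ⟨i0, hi0⟩ := hx
  obtain ⟨j, -, hj⟩ := Finset.exists_max_image Finset.univ (fun i => O.valuation (x i))
    ⟨i0, Finset.mem_univ _⟩
  have hj0 : x j ≠ 0 := by
    intro h
    have h1 := hj i0 (Finset.mem_univ _)
    rw [h, map_zero, le_zero_iff, map_eq_zero] at h1
    exact hi0 h1
  refine ⟨j, hj0, fun i => ?_⟩
  rw [← O.valuation_le_one_iff, map_div₀]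
  exact div_le_one_of_le₀ (hj i (Finset.mem_univ _)) zero_le

section cases

variable {M N : Type} [Field M] [Field N] [Algebra ℂ M] [Algebra M N] [Algebra ℂ N]
  [IsScalarTower ℂ M N] {r : ℕ} {F : MvPolynomial (Fin r) ℂ} (hF : F.IsHomogeneous 3)
  {x lam : Fin r → M} {s : N} {z : Fin r → N}
  (hzd : z = fun i => algebraMap M N (x i) + s * algebraMap M N (lam i))
  {κ : Type} [Field κ] [Algebra ℂ κ] {O : ValuationSubring N} {ρ : O →+* κ} {y : Fin r → κ}
  (hpt : Pt F z O ρ y)

include hF hzd hpt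

/-- the base field is not contained in the valuation ring -/
lemma case_one (h1 : S_T1) (hFi : Irreducible F)
    (hsm : ∀ z : Fin r → ℂ, (∀ i, eval z (pderiv i F) = 0) → z = 0)
    (hx0 : ∀ i, x i ≠ 0) (hx : aeval x F = 0) [FiniteDimensional (ratioField x) M]
    (hmin : ∃ i k, x i * lam k - x k * lam i ≠ 0)
    (hM : ¬ ∀ m : M, algebraMap M N m ∈ O) : Even (finrank (ratioField y) κ) := by
  obtain ⟨i0, k0, hik⟩ := hmin
  let Ou : ValuationSubring M := O.comap (algebraMap M N)
  let ρu : Ou →+* κ :=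
    ρ.comp (((algebraMap M N).comp Ou.subtype).codRestrict O.toSubring fun a => a.2)
  have hρu : ∀ a : Ou, ρu a = ρ ⟨algebraMap M N a, a.2⟩ := fun a => rfl
  have hcu : ∀ c : ℂ, algebraMap ℂ M c ∈ Ou := by
    intro c
    show algebraMap M N (algebraMap ℂ M c) ∈ O
    rw [← IsScalarTower.algebraMap_apply]
    exact hpt.cmem c
  have hρc : ∀ c : ℂ, ρu ⟨_, hcu c⟩ = algebraMap ℂ κ c := by
    intro c
    rw [hρu, ← hpt.cres c]
    congr 1
    exact Subtype.ext (IsScalarTower.algebraMap_apply ℂ M N c).symm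
  have hinv : ∀ a : Ou, ρu a ≠ 0 → (a : M)⁻¹ ∈ Ou := by
    intro a ha
    have h2 := inv_mem_of ρ hpt.surj ha
    show algebraMap M N (a : M)⁻¹ ∈ O
    rw [map_inv₀]
    exact h2
  let L : IntermediateField ℂ κ :=
    { carrier := Set.range ρu
      mul_mem' := by
        rintro _ _ ⟨a, rfl⟩ ⟨b, rfl⟩
        exact ⟨a * b, map_mul _ _ _⟩
      add_mem' := by
        rintro _ _ ⟨a, rfl⟩ ⟨b, rfl⟩
        exact ⟨a + b, map_add _ _ _⟩
      algebraMap_mem' := fun c => ⟨_, hρc c⟩
      inv_mem' := by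
        rintro _ ⟨a, rfl⟩
        by_cases ha : ρu a = 0
        · rw [ha, inv_zero]
          exact ⟨0, map_zero _⟩
        · refine ⟨⟨(a : M)⁻¹, hinv a ha⟩, ?_⟩
          refine eq_inv_of_mul_eq_one_left ?_
          rw [← map_mul, ← map_one ρu]
          congr 1
          apply Subtype.ext
          have h3 : (a : M) ≠ 0 := by
            intro h
            have h4 : a = 0 := Subtype.ext h
            rw [h4, map_zero] at ha
            exact ha rfl
          exact inv_mul_cancel₀ h3 }
  have hLmem : ∀ a : Ou, ρu a ∈ L := fun a => ⟨a, rfl⟩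
  obtain ⟨i1, hi1, hp⟩ := exists_max Ou x ⟨i0, hx0 i0⟩
  have hl : ∃ i, lam i - lam i1 * (x i / x i1) ≠ 0 := by
    by_contra hcon
    push Not at hcon
    apply hik
    have h2 := sub_eq_zero.1 (hcon i0)
    have h3 := sub_eq_zero.1 (hcon k0)
    rw [h2, h3]
    ring
  obtain ⟨i2, hi2, hq⟩ := exists_max Ou (fun i => lam i - lam i1 * (x i / x i1)) hl
  set p : Fin r → M := fun i => x i / x i1 with hpd
  set l' : Fin r → M := fun i => lam i - lam i1 * (x i / x i1) with hld
  have hzi1 : z i1 ≠ 0 := hpt.zne i1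
  set t0 : N := s * algebraMap M N (l' i2) / z i1 with ht0
  have hzi : ∀ i, z i / z i1 = algebraMap M N (p i) + t0 * algebraMap M N (l' i / l' i2) := by
    intro i
    have h2 : algebraMap M N (x i1) ≠ 0 := by
      rw [Ne, map_eq_zero]
      exact hi1
    have h3 : algebraMap M N (l' i2) ≠ 0 := by
      rw [Ne, map_eq_zero]
      exact hi2
    have h4 : z i = algebraMap M N (x i) + s * algebraMap M N (lam i) := by rw [hzd]
    have h5 : z i1 = algebraMap M N (x i1) + s * algebraMap M N (lam i1) := by rw [hzd]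
    have h6 : t0 * algebraMap M N (l' i / l' i2) = s * algebraMap M N (l' i) / z i1 := by
      rw [ht0, map_div₀]
      field_simp
    rw [h6, div_eq_iff hzi1, add_mul, div_mul_cancel₀ _ hzi1]
    have h7 : algebraMap M N (l' i) = algebraMap M N (lam i) -
        algebraMap M N (lam i1) * (algebraMap M N (x i) / algebraMap M N (x i1)) := by
      rw [hld]
      simp only [map_sub, map_mul, map_div₀]
    have h8 : algebraMap M N (p i) = algebraMap M N (x i) / algebraMap M N (x i1) := by
      rw [hpd]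
      simp only [map_div₀]
    rw [h7, h8, h4, h5]
    field_simp
    ring
  have hpO : ∀ i, algebraMap M N (p i) ∈ O := hp
  have hqO : ∀ i, algebraMap M N (l' i / l' i2) ∈ O := hq
  have ht0O : t0 ∈ O := by
    obtain ⟨h2, -⟩ := hpt.rat i2 i1
    have h3 := hzi i2
    rw [div_self hi2, map_one, mul_one] at h3
    have h4 : t0 = z i2 / z i1 - algebraMap M N (p i2) := by rw [h3]; ring
    rw [h4]
    exact sub_mem h2 (hpO i2)
  set t : κ := ρ ⟨t0, ht0O⟩ with ht
  have hy : ∀ i, y i / y i1 = t * ρu ⟨_, hq i⟩ + ρu ⟨_, hp i⟩ := by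
    intro i
    obtain ⟨h2, h3⟩ := hpt.rat i i1
    rw [← h3, ht, hρu, hρu, ← map_mul, ← map_add]
    congr 1
    apply Subtype.ext
    show z i / z i1 = t0 * algebraMap M N (l' i / l' i2) + algebraMap M N (p i)
    rw [hzi i, add_comm]
  have hyf : (fun i => t * ρu ⟨_, hq i⟩ + ρu ⟨_, hp i⟩) = fun i => y i / y i1 := by
    funext i
    exact (hy i).symm
  have hyi1 := hpt.ne i1
  by_cases htr : Transcendental L t
  · have h2 := h1 r 3 F hF (by norm_num) hFi hsm κ L t htr (fun i => ρu ⟨_, hq i⟩)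
      (fun i => ρu ⟨_, hp i⟩) (fun i => hLmem _) (fun i => hLmem _)
      (by rw [hyf]; exact (aeval_div y hyi1 hF).2 hpt.F0)
      (fun e H hH h0 => by
        rw [hyf] at h0
        exact hpt.rel e H hH ((aeval_div y hyi1 hH).1 h0))
    rw [hyf, ratioField_div y hyi1] at h2
    exact even_iff_two_dvd.2 h2
  · by_cases hfin : finrank (ratioField y) κ = 0
    · rw [hfin]
      exact Even.zero
    have hfd : FiniteDimensional (ratioField y) κ :=
      FiniteDimensional.of_finrank_pos (Nat.pos_of_ne_zero hfin)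
    exfalso
    apply hM
    have halg : IsAlgebraic L t := by
      by_contra h
      exact htr h
    -- `κ` is algebraic over `L`
    have hle : ∀ a ∈ ratioField y, a ∈ algebraicClosure L κ := by
      have hE : ratioField y ≤ (algebraicClosure L κ).restrictScalars ℂ := by
        rw [← ratioField_div y hyi1, ← hyf]
        unfold ratioField
        rw [IntermediateField.adjoin_le_iff]
        rintro _ ⟨i, k, rfl⟩
        have h2 : ∀ i, t * ρu ⟨_, hq i⟩ + ρu ⟨_, hp i⟩ ∈ algebraicClosure L κ := by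
          intro i
          refine add_mem (mul_mem ?_ ?_) ?_
          · exact mem_algebraicClosure_iff.2 halg
          · exact (algebraicClosure L κ).algebraMap_mem (⟨_, hLmem _⟩ : L)
          · exact (algebraicClosure L κ).algebraMap_mem (⟨_, hLmem _⟩ : L)
        exact div_mem (h2 i) (h2 k)
      exact fun a ha => hE ha
    have halg2 : Algebra.IsAlgebraic L κ := by
      let _ : Algebra (ratioField y) (algebraicClosure L κ) :=
        ((algebraMap (ratioField y) κ).codRestrict (algebraicClosure L κ).toSubfield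
          fun a => hle _ a.2).toAlgebra
      have _ : IsScalarTower (ratioField y) (algebraicClosure L κ) κ :=
        IsScalarTower.of_algebraMap_eq fun _ => rfl
      have _ : Algebra.IsAlgebraic (algebraicClosure L κ) κ :=
        Algebra.IsAlgebraic.tower_top (K := ratioField y) (algebraicClosure L κ)
      exact Algebra.IsAlgebraic.trans L (algebraicClosure L κ) κ
    obtain ⟨h2, h3⟩ := trdeg_le x y i1 hi1 hyi1 (fun e H hH h0 => by
      obtain ⟨G, rfl⟩ := hpt.rel e H hH h0
      rw [map_mul, hx, zero_mul])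
    have h4 := trdeg_add_eq ℂ L (A := κ)
    rw [trdeg_eq_zero (R := L) (A := κ), add_zero] at h4
    rw [← h4] at h2
    exact eq_top_of_trdeg Ou ρu hcu hρc hinv L (fun l hl => hl) h3 h2

/-- the base field is contained in the valuation ring -/
lemma case_two
    (hlam : ∃ (e : ℕ) (H : MvPolynomial (Fin r) ℂ), H.IsHomogeneous e ∧ aeval lam H = 0 ∧ ¬ F ∣ H)
    (hs : Transcendental M s) (htop : adjoin M {s} = ⊤) {A B : M} (hA : A ≠ 0)
    (hAB : pol x lam F = Polynomial.X * Polynomial.C A + Polynomial.X ^ 2 * Polynomial.C B)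
    (hB : B ≠ 0 → Even (finrank (ratioField fun i => B * x i - A * lam i) M))
    (hmin : ∃ i k, x i * lam k - x k * lam i ≠ 0)
    (hM : ∀ m : M, algebraMap M N m ∈ O) (hns : s ∉ O.nonunits) :
    Even (finrank (ratioField y) κ) := by
  let ν : M →+* κ := ρ.comp ((algebraMap M N).codRestrict O.toSubring hM)
  have hν : ∀ m, ν m = ρ ⟨algebraMap M N m, hM m⟩ := fun m => rfl
  have hνc : ∀ c : ℂ, ν (algebraMap ℂ M c) = algebraMap ℂ κ c := by
    intro c
    rw [hν, ← hpt.cres c]
    congr 1
    exact Subtype.ext (IsScalarTower.algebraMap_apply ℂ M N c).symm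
  obtain ⟨i0, k0, hik⟩ := hmin
  -- a vector in the valuation ring which is proportional to `z`
  have key : ∀ (a : N) (b : Fin r → O), (∀ i, (b i : N) = a * z i) → ∀ k, ρ (b k) ≠ 0 →
      ∀ i, ρ (b i) = ρ (b k) / y k * y i := by
    intro a b hb k hk i
    obtain ⟨h2, h3⟩ := hpt.rat i k
    have h4 : b i = ⟨_, h2⟩ * b k := by
      apply Subtype.ext
      show (b i : N) = z i / z k * (b k : N)
      rw [hb, hb]
      have := hpt.zne k
      field_simp
    rw [h4, map_mul, h3]
    have := hpt.ne k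
    field_simp
  by_cases hsO : s ∈ O
  swap
  · -- `s` is not in the valuation ring
    exfalso
    have hs1 : s⁻¹ ∈ O.nonunits := by
      rw [ValuationSubring.inv_mem_nonunits_iff]
      exact Or.inr hsO
    have hs0 : s ≠ 0 := by
      rintro rfl
      exact hsO O.zero_mem
    let σ' : O := ⟨s⁻¹, ValuationSubring.nonunits_subset hs1⟩
    have hσ' : ρ σ' = 0 := (res_zero ρ hpt.surj σ').2 hs1
    let b : Fin r → O := fun i => ⟨_, hM (x i)⟩ * σ' + ⟨_, hM (lam i)⟩
    have hb : ∀ i, (b i : N) = s⁻¹ * z i := by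
      intro i
      show algebraMap M N (x i) * s⁻¹ + algebraMap M N (lam i) = s⁻¹ * z i
      rw [hzd]
      field_simp
    have hρb : ∀ i, ρ (b i) = ν (lam i) := by
      intro i
      show ρ (⟨_, hM (x i)⟩ * σ' + ⟨_, hM (lam i)⟩) = _
      rw [map_add, map_mul, hσ', mul_zero, zero_add, hν]
    obtain ⟨k, hk⟩ : ∃ k, lam k ≠ 0 := by
      by_contra hcon
      push Not at hcon
      apply hik
      rw [hcon, hcon, mul_zero, mul_zero, sub_zero]
    have hνk : ρ (b k) ≠ 0 := by
      rw [hρb, Ne, map_eq_zero]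
      exact hk
    obtain ⟨e, H, hH, h0, hd⟩ := hlam
    apply hd
    apply hpt.rel e H hH
    have h2 := hom_aeval ν hνc lam H
    rw [h0, map_zero] at h2
    have h3 : (fun i => ν (lam i)) = fun i => ρ (b k) / y k * y i := by
      funext i
      rw [← hρb, key s⁻¹ b hb k hνk]
    rw [h3, aeval_smul_form hH] at h2
    exact (mul_eq_zero.1 h2.symm).resolve_left
      (pow_ne_zero _ (div_ne_zero hνk (hpt.ne k)))
  · obtain ⟨σ, hσ⟩ : ∃ σ, σ = ρ ⟨s, hsO⟩ := ⟨_, rfl⟩
    let b : Fin r → O := fun i => ⟨_, hM (x i)⟩ + ⟨s, hsO⟩ * ⟨_, hM (lam i)⟩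
    have hb : ∀ i, (b i : N) = 1 * z i := by
      intro i
      show algebraMap M N (x i) + s * algebraMap M N (lam i) = 1 * z i
      rw [hzd, one_mul]
    have hρb : ∀ i, ρ (b i) = ν (x i) + σ * ν (lam i) := by
      intro i
      show ρ (⟨_, hM (x i)⟩ + ⟨s, hsO⟩ * ⟨_, hM (lam i)⟩) = _
      rw [map_add, map_mul, hσ, hν, hν]
    obtain ⟨k, hk⟩ : ∃ k, ρ (b k) ≠ 0 := by
      by_contra hcon
      push Not at hcon
      apply hik
      have h2 := hcon i0
      have h3 := hcon k0
      rw [hρb] at h2 h3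
      have h4 : ν (x i0 * lam k0 - x k0 * lam i0) = 0 := by
        rw [map_sub, map_mul, map_mul]
        linear_combination ν (lam k0) * h2 - ν (lam i0) * h3
      rwa [map_eq_zero] at h4
    have hyb := key 1 b hb k hk
    have hne : ρ (b k) / y k ≠ 0 := div_ne_zero hk (hpt.ne k)
    have hFb : aeval (fun i => ν (x i) + σ * ν (lam i)) F = 0 := by
      have h3 : (fun i => ν (x i) + σ * ν (lam i)) = fun i => ρ (b k) / y k * y i := by
        funext i
        rw [← hρb, hyb]
      rw [h3, aeval_smul_form hF, hpt.F0, mul_zero]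
    rw [← pol_eval₂ ν hνc, hAB] at hFb
    simp only [Polynomial.eval₂_add, Polynomial.eval₂_mul, Polynomial.eval₂_X,
      Polynomial.eval₂_C, Polynomial.eval₂_pow] at hFb
    have h4 : σ * (ν A + σ * ν B) = 0 := by
      rw [← hFb]
      ring
    have hσ0 : σ ≠ 0 := by
      intro h
      rw [hσ] at h
      exact hns ((res_zero ρ hpt.surj _).1 h)
    have h5 := (mul_eq_zero.1 h4).resolve_left hσ0
    have hB0 : B ≠ 0 := by
      rintro rfl
      rw [map_zero, mul_zero, add_zero, map_eq_zero] at h5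
      exact hA h5
    have hνB : ν B ≠ 0 := by
      rw [Ne, map_eq_zero]
      exact hB0
    have hσc : σ = ν (-A / B) := by
      rw [map_div₀, map_neg, eq_div_iff hνB]
      linear_combination h5
    have hc : s - algebraMap M N (-A / B) ∈ O.nonunits := by
      have h6 : ρ (⟨s, hsO⟩ - ⟨_, hM (-A / B)⟩) = 0 := by
        rw [map_sub, ← hσ, ← hν, hσc, sub_self]
      exact (res_zero ρ hpt.surj _).1 h6
    have hsurj : Function.Surjective ν := by
      intro w
      obtain ⟨⟨a, ha⟩, rfl⟩ := hpt.surj w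
      obtain ⟨g, h, h6, h7⟩ := (mem_iff hM hc hs htop a).1 ha
      have h8 := res_eq hM hc h6 h7
      refine ⟨g.eval (-A / B) / h.eval (-A / B), ?_⟩
      have h9 : ρ (⟨a, ha⟩ - ⟨_, hM (g.eval (-A / B) / h.eval (-A / B))⟩) = 0 :=
        (res_zero ρ hpt.surj _).2 h8
      rw [map_sub, ← hν, sub_eq_zero] at h9
      exact h9.symm
    let ν' : M →ₐ[ℂ] κ := { ν with commutes' := hνc }
    let e : M ≃ₐ[ℂ] κ := AlgEquiv.ofBijective ν' ⟨ν.injective, hsurj⟩
    have he : ∀ m, e m = ν m := fun m => rfl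
    have h6 := finrank_map e (fun i => B * x i - A * lam i)
    have h7 : ratioField (fun i => e (B * x i - A * lam i)) = ratioField y := by
      have h8 : ρ (b k) / y k * ν B ≠ 0 := mul_ne_zero hne hνB
      have h9 : (fun i => e (B * x i - A * lam i)) = fun i => y i / (ρ (b k) / y k * ν B)⁻¹ := by
        funext i
        rw [div_inv_eq_mul, he, map_sub, map_mul, map_mul]
        have h10 := hyb i
        rw [hρb] at h10
        linear_combination ν B * h10 - ν (lam i) * h5
      rw [h9, ratioField_div y (inv_ne_zero h8)]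
    rw [h7] at h6
    rw [h6]
    exact hB hB0

end cases

/-- **S_THREE** -/
theorem three (h1 : S_T1) (h2 : S_FI) : S_THREE := by
  intro r F hF hFi hsm M N _ _ _ _ _ _ x lam s hx hrel hodd hlam hs htop A B hA hAB hB
  have hAB' : pol x lam F =
      Polynomial.X * Polynomial.C A + Polynomial.X ^ 2 * Polynomial.C B := hAB
  have hx0 : ∀ i, x i ≠ 0 := fun i h =>
    not_dvd_X hF hFi i (hrel 1 (X i) (isHomogeneous_X _ _) (by rw [aeval_X, h]))
  obtain ⟨j⟩ := exists_idx hF hFi
  have hFd : FiniteDimensional (ratioField x) M := FiniteDimensional.of_finrank_pos hodd.pos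
  have hpF : pol x lam F ≠ 0 := by
    intro h
    rw [hAB'] at h
    have h3 := congrArg (fun p => Polynomial.coeff p 1) h
    simp [Polynomial.coeff_X_pow] at h3
    exact hA h3
  have hz := gen_z (N := N) hF hFi hrel hs hpF
  refine ⟨hz, ?_⟩
  have hmin := exists_minor hF hx hA hAB' ⟨j, hx0 j⟩
  obtain ⟨z, hzd⟩ : ∃ z : Fin r → N,
      z = fun i => algebraMap M N (x i) + s * algebraMap M N (lam i) := ⟨_, rfl⟩
  rw [← hzd] at hz ⊢
  have hfz := fin_z hF hFi.ne_zero x z s j (hx0 j) hx htop hz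
  obtain ⟨O₀, ρ₀, x₀, h3, h4, h5, h6, h7, h8, h9⟩ :=
    main_place hF hFi hx hrel hs htop hA hAB' hzd
  refine h2 r 3 F hF (by norm_num) hFi N z hz hfz O₀ M ρ₀ x₀ h3 h4 h5 h6 (by rw [h7]; exact hodd) ?_
  intro O κ _ _ ρ y h10 h11 h12 hne
  have hpt := pt_of hF hFi hz h10 h11 h12
  by_cases hM : ∀ m : M, algebraMap M N m ∈ O
  · refine case_two hF hzd hpt hlam hs htop hA hAB' hB hmin hM ?_
    intro hns
    apply hne
    refine place_unique (c := 0) hs htop hM h8 ?_ ?_
    · rw [map_zero, sub_zero]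
      exact hns
    · rw [map_zero, sub_zero]
      exact h9
  · exact case_one hF hzd hpt h1 hFi hsm hx0 hx hmin hM

end

end Pool.Agent.Y317.LI
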