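import Pool.Agent.Y929.LI.Fa
import Pool.Agent.Y201.LI.Stm3

/-! # Project LI: places of a field of rational functions in one variable -/

set_option autoImplicit false

namespace Pool.Agent.Y317.LI

open MvPolynomial Pool.Agent.TH314.PD IntermediateField Module Pool.Agent.Y201.LI
  Pool.Agent.Y929.LI

noncomputable section

/-- the kernel of the residue map -/
lemma res_zero {N κ : Type} [Field N] [Field κ] {O : ValuationSubring N} (ρ : O →+* κ)
    (hρ : Function.Surjective ρ) (a : O) : ρ a = 0 ↔ (a : N) ∈ O.nonunits := by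
  have hk : RingHom.ker ρ = IsLocalRing.maximalIdeal O :=
    IsLocalRing.eq_maximalIdeal (RingHom.ker_isMaximal_of_surjective ρ hρ)
  rw [← RingHom.mem_ker, hk, ValuationSubring.coe_mem_nonunits_iff]

section places

variable {M N : Type} [Field M] [Field N] [Algebra M N] {s : N}

/-- every element of `M(s)` is a quotient of coprime polynomials -/
lemma exists_coprime (hs : Transcendental M s) (htop : adjoin M {s} = ⊤) (a : N) (c : M) :
    ∃ g h : Polynomial M, h ≠ 0 ∧ a * Polynomial.aeval s h = Polynomial.aeval s g ∧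
      (h.eval c = 0 → g.eval c ≠ 0) := by
  have ha : a ∈ adjoin M {s} := by rw [htop]; exact mem_top
  obtain ⟨g, h, rfl⟩ := (mem_adjoin_simple_iff M a).1 ha
  have hinj : ∀ p : Polynomial M, Polynomial.aeval s p = 0 → p = 0 := transcendental_iff.1 hs
  by_cases hh : h = 0
  · refine ⟨0, 1, one_ne_zero, ?_, ?_⟩
    · simp [hh]
    · simp
  · obtain ⟨h', g', d, hrel, hh', hg'⟩ := UniqueFactorizationMonoid.exists_reduced_factors h hh g
    have hh0 : h' ≠ 0 := by
      rintro rfl
      exact hh (by rw [← hh', mul_zero])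
    have hd : Polynomial.aeval s d ≠ 0 := fun h0 => hh (by rw [← hh', hinj d h0, zero_mul])
    have hh1 : Polynomial.aeval s h' ≠ 0 := fun h0 => hh0 (hinj _ h0)
    refine ⟨g', h', hh0, ?_, ?_⟩
    · rw [← hh', ← hg', map_mul, map_mul]
      field_simp
    · intro h1 h2
      have := hrel (Polynomial.dvd_iff_isRoot.2 h1) (Polynomial.dvd_iff_isRoot.2 h2)
      exact Polynomial.not_isUnit_X_sub_C c this

section val

variable {O : ValuationSubring N} (hM : ∀ m : M, algebraMap M N m ∈ O) {c : M}
  (hc : s - algebraMap M N c ∈ O.nonunits)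

include hM in
lemma val_alg {m : M} (hm : m ≠ 0) : O.valuation (algebraMap M N m) = 1 := by
  have h1 := (O.valuation_le_one_iff _).2 (hM m)
  have h2 := (O.valuation_le_one_iff _).2 (hM m⁻¹)
  refine le_antisymm h1 ?_
  by_contra h
  push Not at h
  have h3 : O.valuation (algebraMap M N m) * O.valuation (algebraMap M N m⁻¹) = 1 := by
    rw [← map_mul, ← map_mul, mul_inv_cancel₀ hm, map_one, map_one]
  have h4 : O.valuation (algebraMap M N m) * O.valuation (algebraMap M N m⁻¹) < 1 :=
    mul_lt_one_of_lt_of_le h h2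
  exact h4.ne h3

include hM hc

lemma s_mem : s ∈ O := by
  have h1 := O.add_mem _ _ (ValuationSubring.nonunits_subset hc) (hM c)
  rwa [sub_add_cancel] at h1

lemma aeval_mem (p : Polynomial M) : Polynomial.aeval s p ∈ O := by
  rw [Polynomial.aeval_eq_sum_range]
  refine sum_mem fun i _ => ?_
  rw [Algebra.smul_def]
  exact O.mul_mem _ _ (hM _) (pow_mem (s_mem hM hc) _)

lemma val_lt {p : Polynomial M} (hp : p.eval c = 0) : O.valuation (Polynomial.aeval s p) < 1 := by
  obtain ⟨q, rfl⟩ := Polynomial.dvd_iff_isRoot.2 hp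
  rw [map_mul, map_mul]
  refine mul_lt_one_of_lt_of_le ?_ ((O.valuation_le_one_iff _).2 (aeval_mem hM hc q))
  rw [map_sub, Polynomial.aeval_X, Polynomial.aeval_C]
  exact (ValuationSubring.mem_nonunits_iff O).1 hc

lemma val_eq {p : Polynomial M} (hp : p.eval c ≠ 0) : O.valuation (Polynomial.aeval s p) = 1 := by
  have h1 : (p - Polynomial.C (p.eval c)).eval c = 0 := by simp
  have h2 := val_lt hM hc h1
  rw [map_sub, Polynomial.aeval_C] at h2
  have h3 := val_alg hM hp
  rw [← h3] at h2
  have h4 := O.valuation.map_add_eq_of_lt_left h2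
  rw [add_sub_cancel] at h4
  rw [h4, h3]

/-- the elements of the valuation ring -/
lemma mem_iff (hs : Transcendental M s) (htop : adjoin M {s} = ⊤) (a : N) :
    a ∈ O ↔ ∃ g h : Polynomial M, h.eval c ≠ 0 ∧
      a * Polynomial.aeval s h = Polynomial.aeval s g := by
  constructor
  · intro ha
    obtain ⟨g, h, -, h1, h2⟩ := exists_coprime hs htop a c
    refine ⟨g, h, fun h3 => ?_, h1⟩
    have h4 := congrArg O.valuation h1
    rw [map_mul, val_eq hM hc (h2 h3)] at h4
    rw [mul_comm] at h4
    have h5 := mul_lt_one_of_lt_of_le (val_lt hM hc h3) ((O.valuation_le_one_iff _).2 ha)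
    exact h5.ne h4
  · rintro ⟨g, h, h1, h2⟩
    rw [← O.valuation_le_one_iff]
    have h4 := congrArg O.valuation h2
    rw [map_mul, val_eq hM hc h1, mul_one] at h4
    rw [h4]
    exact (O.valuation_le_one_iff _).2 (aeval_mem hM hc g)

/-- the residue class of an element of the valuation ring -/
lemma res_eq {a : N} {g h : Polynomial M} (h1 : h.eval c ≠ 0)
    (h2 : a * Polynomial.aeval s h = Polynomial.aeval s g) :
    a - algebraMap M N (g.eval c / h.eval c) ∈ O.nonunits := by
  rw [ValuationSubring.mem_nonunits_iff]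
  have h3 : (g - Polynomial.C (g.eval c / h.eval c) * h).eval c = 0 := by
    simp only [Polynomial.eval_sub, Polynomial.eval_mul, Polynomial.eval_C]
    field_simp
    ring
  have h4 := val_lt hM hc h3
  have h5 : Polynomial.aeval s (g - Polynomial.C (g.eval c / h.eval c) * h) =
      (a - algebraMap M N (g.eval c / h.eval c)) * Polynomial.aeval s h := by
    rw [map_sub, map_mul, Polynomial.aeval_C, ← h2]
    ring
  rw [h5, map_mul, val_eq hM hc h1, mul_one] at h4
  exact h4

end val

/-- two places with the same centre are equal -/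
lemma place_unique (hs : Transcendental M s) (htop : adjoin M {s} = ⊤)
    {O O' : ValuationSubring N} (hM : ∀ m : M, algebraMap M N m ∈ O)
    (hM' : ∀ m : M, algebraMap M N m ∈ O') {c : M} (hc : s - algebraMap M N c ∈ O.nonunits)
    (hc' : s - algebraMap M N c ∈ O'.nonunits) : O = O' := by
  ext a
  rw [mem_iff hM hc hs htop, mem_iff hM' hc' hs htop]

/-- the place at zero -/
lemma exists_place (hs : Transcendental M s) (htop : adjoin M {s} = ⊤) :
    ∃ (O : ValuationSubring N) (ρ : O →+* M),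
      (∀ g h : Polynomial M, h.eval 0 ≠ 0 →
        ∃ hm : Polynomial.aeval s g / Polynomial.aeval s h ∈ O, ρ ⟨_, hm⟩ = g.eval 0 / h.eval 0) ∧
      (∀ a ∈ O, ∃ g h : Polynomial M, h.eval 0 ≠ 0 ∧ a = Polynomial.aeval s g / Polynomial.aeval s h)
        := by
  have hinj : ∀ p : Polynomial M, Polynomial.aeval s p = 0 → p = 0 := transcendental_iff.1 hs
  have hne : ∀ p : Polynomial M, p.eval 0 ≠ 0 → Polynomial.aeval s p ≠ 0 := by
    intro p hp h0
    rw [hinj p h0] at hp
    exact hp Polynomial.eval_zero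
  let S : N → M → Prop := fun a m => ∃ g h : Polynomial M, h.eval 0 ≠ 0 ∧
    a * Polynomial.aeval s h = Polynomial.aeval s g ∧ m = g.eval 0 / h.eval 0
  have huniq : ∀ a m m', S a m → S a m' → m = m' := by
    rintro a m m' ⟨g, h, h1, h2, rfl⟩ ⟨g', h', h1', h2', rfl⟩
    have h3 : g * h' - g' * h = 0 := by
      apply hinj
      rw [map_sub, map_mul, map_mul, ← h2, ← h2']
      ring
    have h4 := congrArg (Polynomial.eval 0) (sub_eq_zero.1 h3)
    rw [Polynomial.eval_mul, Polynomial.eval_mul] at h4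
    rw [div_eq_div_iff h1 h1']
    exact h4
  have hmul : ∀ a b m n, S a m → S b n → S (a * b) (m * n) := by
    rintro a b m n ⟨g, h, h1, h2, rfl⟩ ⟨g', h', h1', h2', rfl⟩
    refine ⟨g * g', h * h', ?_, ?_, ?_⟩
    · rw [Polynomial.eval_mul]
      exact mul_ne_zero h1 h1'
    · rw [map_mul, map_mul, ← h2, ← h2']
      ring
    · rw [Polynomial.eval_mul, Polynomial.eval_mul, div_mul_div_comm]
  have hadd : ∀ a b m n, S a m → S b n → S (a + b) (m + n) := by
    rintro a b m n ⟨g, h, h1, h2, rfl⟩ ⟨g', h', h1', h2', rfl⟩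
    refine ⟨g * h' + h * g', h * h', ?_, ?_, ?_⟩
    · rw [Polynomial.eval_mul]
      exact mul_ne_zero h1 h1'
    · rw [map_mul, map_add, map_mul, map_mul, ← h2, ← h2']
      ring
    · rw [Polynomial.eval_add, Polynomial.eval_mul, Polynomial.eval_mul, Polynomial.eval_mul,
        div_add_div _ _ h1 h1']
  have hone : S 1 1 := ⟨1, 1, by simp, by simp, by simp⟩
  have hzero : S 0 0 := ⟨0, 1, by simp, by simp, by simp⟩
  have hneg : ∀ a m, S a m → S (-a) (-m) := by
    rintro a m ⟨g, h, h1, h2, rfl⟩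
    refine ⟨-g, h, h1, ?_, ?_⟩
    · rw [map_neg, ← h2, neg_mul]
    · rw [Polynomial.eval_neg, neg_div]
  let O : ValuationSubring N :=
    { carrier := {a | ∃ m, S a m}
      mul_mem' := by
        rintro a b ⟨m, hm⟩ ⟨n, hn⟩
        exact ⟨_, hmul _ _ _ _ hm hn⟩
      one_mem' := ⟨_, hone⟩
      add_mem' := by
        rintro a b ⟨m, hm⟩ ⟨n, hn⟩
        exact ⟨_, hadd _ _ _ _ hm hn⟩
      zero_mem' := ⟨_, hzero⟩
      neg_mem' := by
        rintro a ⟨m, hm⟩
        exact ⟨_, hneg _ _ hm⟩
      mem_or_inv_mem' := by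
        intro a
        obtain ⟨g, h, h0, h1, h2⟩ := exists_coprime hs htop a 0
        by_cases h3 : h.eval 0 = 0
        · right
          refine ⟨h.eval 0 / g.eval 0, h, g, h2 h3, ?_, rfl⟩
          have h4 := hne g (h2 h3)
          rw [← h1] at h4 ⊢
          rw [← mul_assoc, inv_mul_cancel₀ (left_ne_zero_of_mul h4), one_mul]
        · left
          exact ⟨g.eval 0 / h.eval 0, g, h, h3, h1, rfl⟩ }
  have hO : ∀ a : O, ∃ m, S a m := fun a => a.2
  choose f hf using hO
  let ρ : O →+* M :=
    { toFun := f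
      map_one' := huniq _ _ _ (hf 1) hone
      map_mul' := fun a b => huniq _ _ _ (hf (a * b)) (hmul _ _ _ _ (hf a) (hf b))
      map_zero' := huniq _ _ _ (hf 0) hzero
      map_add' := fun a b => huniq _ _ _ (hf (a + b)) (hadd _ _ _ _ (hf a) (hf b)) }
  refine ⟨O, ρ, ?_, ?_⟩
  · intro g h hh
    have h1 : S (Polynomial.aeval s g / Polynomial.aeval s h) (g.eval 0 / h.eval 0) :=
      ⟨g, h, hh, div_mul_cancel₀ _ (hne h hh), rfl⟩
    exact ⟨⟨_, h1⟩, huniq _ _ _ (hf _) h1⟩
  · rintro a ⟨m, g, h, h1, h2, -⟩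
    exact ⟨g, h, h1, by rw [← h2, mul_div_cancel_right₀ _ (hne h h1)]⟩

end places

end

end Pool.Agent.Y317.LI
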