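import Pool.Agent.Y317.LI.Tr

/-! # Project LI: reductions of the generic point -/

set_option autoImplicit false

namespace Pool.Agent.Y317.LI

open MvPolynomial Pool.Agent.TH314.PD IntermediateField Module Pool.Agent.Y201.LI
  Pool.Agent.Y929.LI

noncomputable section

lemma hom_aeval {A B : Type} [CommRing A] [CommRing B] [Algebra ℂ A] [Algebra ℂ B] (φ : A →+* B)
    (hφ : ∀ c : ℂ, φ (algebraMap ℂ A c) = algebraMap ℂ B c) {r : ℕ} (v : Fin r → A)
    (H : MvPolynomial (Fin r) ℂ) : φ (aeval v H) = aeval (fun i => φ (v i)) H := by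
  rw [aeval_def, aeval_def, MvPolynomial.hom_eval₂]
  congr 1
  ext c
  exact hφ c

/-! ### the residue map -/

section res

variable {N κ : Type} [Field N] [Field κ] {O : ValuationSubring N} (ρ : O →+* κ)
  (hρ : Function.Surjective ρ)

include hρ

lemma inv_mem_of {a : O} (ha : ρ a ≠ 0) : (a : N)⁻¹ ∈ O := by
  rw [Ne, res_zero ρ hρ, ValuationSubring.mem_nonunits_iff_or] at ha
  push Not at ha
  exact ha.2

lemma res_div (a : O) {b : O} (hb : ρ b ≠ 0) :
    ∃ h : (a : N) / b ∈ O, ρ ⟨_, h⟩ = ρ a / ρ b := by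
  have h1 := inv_mem_of ρ hρ hb
  have h2 : (a : N) / b ∈ O := by
    rw [div_eq_mul_inv]
    exact O.mul_mem _ _ a.2 h1
  refine ⟨h2, ?_⟩
  rw [eq_div_iff hb, ← map_mul]
  congr 1
  apply Subtype.ext
  have h3 : (b : N) ≠ 0 := by
    intro h
    have h4 : b = 0 := Subtype.ext h
    rw [h4, map_zero] at hb
    exact hb rfl
  exact div_mul_cancel₀ _ h3

end res

/-- evaluation of a polynomial in the valuation ring -/
lemma res_aeval {N κ : Type} [Field N] [Field κ] [Algebra ℂ N] [Algebra ℂ κ]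
    {O : ValuationSubring N} (ρ : O →+* κ) (hc : ∀ c : ℂ, algebraMap ℂ N c ∈ O)
    (hρc : ∀ c : ℂ, ρ ⟨_, hc c⟩ = algebraMap ℂ κ c) {r : ℕ} (w : Fin r → O)
    (H : MvPolynomial (Fin r) ℂ) :
    ∃ h : aeval (fun i => (w i : N)) H ∈ O, ρ ⟨_, h⟩ = aeval (fun i => ρ (w i)) H := by
  let _ : Algebra ℂ O := ((algebraMap ℂ N).codRestrict O.toSubring hc).toAlgebra
  have h1 : ((aeval w H : O) : N) = aeval (fun i => (w i : N)) H :=
    hom_aeval O.subtype (fun c => rfl) w H
  have h2 : ρ (aeval w H) = aeval (fun i => ρ (w i)) H := hom_aeval ρ hρc w H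
  refine ⟨by rw [← h1]; exact (aeval w H : O).2, ?_⟩
  rw [← h2]
  congr 1
  exact Subtype.ext h1.symm

/-! ### the equation -/

lemma not_dvd_X {r : ℕ} {F : MvPolynomial (Fin r) ℂ} (hF : F.IsHomogeneous 3)
    (hFi : Irreducible F) (j : Fin r) : ¬ F ∣ X j := by
  rintro ⟨G, hG⟩
  have hG0 : G ≠ 0 := by
    rintro rfl
    rw [mul_zero] at hG
    exact X_ne_zero j hG
  have h1 := congrArg totalDegree hG
  rw [totalDegree_X, totalDegree_mul_of_isDomain hFi.ne_zero hG0, hF.totalDegree hFi.ne_zero] at h1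
  omega

lemma not_dvd_X_pow {r : ℕ} {F : MvPolynomial (Fin r) ℂ} (hF : F.IsHomogeneous 3)
    (hFi : Irreducible F) (j : Fin r) (n : ℕ) : ¬ F ∣ X j ^ n := fun h =>
  not_dvd_X hF hFi j ((UniqueFactorizationMonoid.irreducible_iff_prime.1 hFi).dvd_of_dvd_pow h)

lemma exists_idx {r : ℕ} {F : MvPolynomial (Fin r) ℂ} (hF : F.IsHomogeneous 3)
    (hFi : Irreducible F) : Nonempty (Fin r) := by
  by_contra hr
  rw [not_nonempty_iff] at hr
  have h1 := hF.totalDegree hFi.ne_zero
  rw [eq_C_of_isEmpty F, totalDegree_C] at h1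
  omega

/-- the data of a reduction of the generic point -/
structure Pt {N κ : Type} [Field N] [Field κ] [Algebra ℂ N] [Algebra ℂ κ] {r : ℕ}
    (F : MvPolynomial (Fin r) ℂ) (z : Fin r → N) (O : ValuationSubring N) (ρ : O →+* κ)
    (x : Fin r → κ) : Prop where
  surj : Function.Surjective ρ
  cmem : ∀ c : ℂ, algebraMap ℂ N c ∈ O
  cres : ∀ c : ℂ, ρ ⟨_, cmem c⟩ = algebraMap ℂ κ c
  rat : ∀ i j, ∃ h : z i / z j ∈ O, ρ ⟨_, h⟩ = x i / x j
  ne : ∀ i, x i ≠ 0
  zne : ∀ i, z i ≠ 0
  F0 : aeval x F = 0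
  rel : ∀ (e : ℕ) (H : MvPolynomial (Fin r) ℂ), H.IsHomogeneous e → aeval x H = 0 → F ∣ H

lemma pt_of {N κ : Type} [Field N] [Field κ] [Algebra ℂ N] [Algebra ℂ κ] {r : ℕ}
    {F : MvPolynomial (Fin r) ℂ} (hF : F.IsHomogeneous 3) (hFi : Irreducible F) {z : Fin r → N}
    (hz : ∀ (e : ℕ) (H : MvPolynomial (Fin r) ℂ), H.IsHomogeneous e → aeval z H = 0 → H = 0)
    {O : ValuationSubring N} {ρ : O →+* κ} {x : Fin r → κ} (h1 : IsRes O ρ) (h2 : Over F z O)
    (h3 : Red O ρ z x) : Pt F z O ρ x := by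
  have hcm : ∀ c : ℂ, algebraMap ℂ N c ∈ O := by
    intro c
    have h4 := (h2 0 1 (C c) (isHomogeneous_one _ _) (isHomogeneous_C _ _)
      (fun h => hFi.not_isUnit (isUnit_of_dvd_one h))).1
    rwa [aeval_C, map_one, div_one] at h4
  have hcr : ∀ c : ℂ, ρ ⟨_, hcm c⟩ = algebraMap ℂ κ c := fun c => h1.2 c _
  have hzn : ∀ i, z i ≠ 0 := by
    intro i h
    exact X_ne_zero (R := ℂ) i (hz 1 (X i) (isHomogeneous_X _ _) (by rw [aeval_X, h]))
  obtain ⟨j, hj, hx⟩ := h3
  choose hm hx using hx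
  have hev : ∀ H : MvPolynomial (Fin r) ℂ, ∃ h : aeval (fun i => z i / z j) H ∈ O,
      ρ ⟨_, h⟩ = aeval x H := by
    intro H
    obtain ⟨h4, h5⟩ := res_aeval ρ hcm hcr (fun i => ⟨z i / z j, hm i⟩) H
    refine ⟨h4, h5.trans ?_⟩
    congr 2
    funext i
    exact (hx i).symm
  have hdiv : ∀ (e : ℕ) (H : MvPolynomial (Fin r) ℂ), H.IsHomogeneous e →
      aeval (fun i => z i / z j) H = aeval z H / z j ^ e := by
    intro e H hH
    rw [eq_div_iff (pow_ne_zero _ hj), mul_comm, ← aeval_smul_form hH]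
    congr 2
    funext i
    rw [mul_div_cancel₀ _ hj]
  have hrel : ∀ (e : ℕ) (H : MvPolynomial (Fin r) ℂ), H.IsHomogeneous e → aeval x H = 0 →
      F ∣ H := by
    intro e H hH h0
    by_contra hd
    have h4 := (h2 e H (X j ^ e) hH (isHomogeneous_X_pow _ _) hd).1
    rw [map_pow, aeval_X] at h4
    have hH0 : aeval z H ≠ 0 := fun h => hd (by rw [hz e H hH h]; exact dvd_zero _)
    obtain ⟨h5, h6⟩ := hev H
    have h7 : (⟨_, h5⟩ : O) * ⟨_, h4⟩ = 1 := by
      apply Subtype.ext
      show aeval (fun i => z i / z j) H * (z j ^ e / aeval z H) = 1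
      rw [hdiv e H hH]
      field_simp
    have h8 := congrArg ρ h7
    rw [map_mul, h6, h0, zero_mul, map_one] at h8
    exact zero_ne_one h8
  have hne : ∀ i, x i ≠ 0 := fun i h =>
    not_dvd_X hF hFi i (hrel 1 (X i) (isHomogeneous_X _ _) (by rw [aeval_X, h]))
  refine ⟨h1.1, hcm, hcr, ?_, hne, hzn, ?_, hrel⟩
  · intro i k
    obtain ⟨h4, h5⟩ := res_div ρ h1.1 (⟨z i / z j, hm i⟩ : O) (b := ⟨z k / z j, hm k⟩)
      (by rw [← hx]; exact hne k)
    have h6 : z i / z k = z i / z j / (z k / z j) := by rw [div_div_div_cancel_right₀ hj]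
    refine ⟨by rw [h6]; exact h4, ?_⟩
    rw [hx i, hx k, ← h5]
    congr 1
    exact Subtype.ext h6
  · have h4 := (h2 3 (X j ^ 3) F (isHomogeneous_X_pow _ _) hF (not_dvd_X_pow hF hFi j 3)).2
      dvd_rfl
    rw [map_pow, aeval_X, ← hdiv 3 F hF] at h4
    obtain ⟨h5, h6⟩ := hev F
    rw [← h6, res_zero ρ h1.1]
    exact h4

/-! ### the pencil of points -/

section pencil

variable {M N : Type} [Field M] [Field N] [Algebra ℂ M] [Algebra M N] [Algebra ℂ N]
  [IsScalarTower ℂ M N] {r : ℕ}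

/-- the value of a form at `x + T lam` -/
def pol (x lam : Fin r → M) (H : MvPolynomial (Fin r) ℂ) : Polynomial M :=
  aeval (fun i => Polynomial.C (x i) + Polynomial.X * Polynomial.C (lam i)) H

lemma pol_eval₂ {κ : Type} [Field κ] [Algebra ℂ κ] (ν : M →+* κ)
    (hν : ∀ c : ℂ, ν (algebraMap ℂ M c) = algebraMap ℂ κ c) (σ : κ) (x lam : Fin r → M)
    (H : MvPolynomial (Fin r) ℂ) :
    (pol x lam H).eval₂ ν σ = aeval (fun i => ν (x i) + σ * ν (lam i)) H := by
  have h1 := hom_aeval (Polynomial.eval₂RingHom ν σ) (fun c => by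
    rw [Polynomial.algebraMap_apply, Polynomial.coe_eval₂RingHom, Polynomial.eval₂_C, hν])
    (fun i => Polynomial.C (x i) + Polynomial.X * Polynomial.C (lam i)) H
  rw [Polynomial.coe_eval₂RingHom] at h1
  refine h1.trans ?_
  congr 2
  funext i
  simp
  exact mul_comm _ _

lemma pol_eval (c : M) (x lam : Fin r → M) (H : MvPolynomial (Fin r) ℂ) :
    (pol x lam H).eval c = aeval (fun i => x i + c * lam i) H :=
  pol_eval₂ (RingHom.id M) (fun _ => rfl) c x lam H

lemma pol_zero (x lam : Fin r → M) (H : MvPolynomial (Fin r) ℂ) :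
    (pol x lam H).eval 0 = aeval x H := by
  rw [pol_eval]
  congr 2
  funext i
  rw [zero_mul, add_zero]

lemma pol_aeval (s : N) (x lam : Fin r → M) (H : MvPolynomial (Fin r) ℂ) :
    Polynomial.aeval s (pol x lam H) =
      aeval (fun i => algebraMap M N (x i) + s * algebraMap M N (lam i)) H :=
  pol_eval₂ (algebraMap M N) (fun c => (IsScalarTower.algebraMap_apply ℂ M N c).symm) s x lam H

lemma hcomp_mul {R σ : Type} [CommRing R] (p F : MvPolynomial σ R) (a m : ℕ)
    (hF : F.IsHomogeneous m) :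
    homogeneousComponent (a + m) (p * F) = homogeneousComponent a p * F := by
  conv_lhs => rw [← sum_homogeneousComponent p]
  rw [Finset.sum_mul, map_sum]
  have h : ∀ i, homogeneousComponent (a + m) (homogeneousComponent i p * F) =
      if a = i then homogeneousComponent i p * F else 0 := by
    intro i
    have h1 : (homogeneousComponent i p * F).IsHomogeneous (i + m) :=
      (homogeneousComponent_isHomogeneous i p).mul hF
    rw [homogeneousComponent_of_mem h1]
    by_cases hi : a = i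
    · simp [hi]
    · rw [if_neg hi, if_neg (by omega)]
  simp only [h]
  rw [Finset.sum_ite_eq]
  split_ifs with h2
  · rfl
  · rw [homogeneousComponent_eq_zero, zero_mul]
    rw [Finset.mem_range] at h2
    omega

/-- the point `x + s lam` is generic -/
lemma gen_z {F : MvPolynomial (Fin r) ℂ} (hF : F.IsHomogeneous 3) (hFi : Irreducible F)
    {x lam : Fin r → M} {s : N}
    (hrel : ∀ (e : ℕ) (H : MvPolynomial (Fin r) ℂ), H.IsHomogeneous e → aeval x H = 0 → F ∣ H)
    (hs : Transcendental M s) (hF1 : pol x lam F ≠ 0) :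
    ∀ (e : ℕ) (H : MvPolynomial (Fin r) ℂ), H.IsHomogeneous e →
      aeval (fun i => algebraMap M N (x i) + s * algebraMap M N (lam i)) H = 0 → H = 0 := by
  intro e
  induction e using Nat.strong_induction_on with
  | _ e ih =>
    intro H hH h0
    have h1 : pol x lam H = 0 := transcendental_iff.1 hs _ (by rw [pol_aeval]; exact h0)
    have h2 : aeval x H = 0 := by rw [← pol_zero x lam, h1, Polynomial.eval_zero]
    obtain ⟨G, hG⟩ := hrel e H hH h2
    by_contra hne
    have hG0 : G ≠ 0 := by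
      rintro rfl
      exact hne (by rw [hG, mul_zero])
    have h3 := hH.totalDegree hne
    rw [hG, totalDegree_mul_of_isDomain hFi.ne_zero hG0, hF.totalDegree hFi.ne_zero] at h3
    obtain ⟨a, rfl⟩ : ∃ a, e = a + 3 := ⟨e - 3, by omega⟩
    have h4 : H = homogeneousComponent a G * F := by
      rw [← hcomp_mul G F a 3 hF, mul_comm, ← hG, homogeneousComponent_of_mem hH, if_pos rfl]
    have h5 : aeval (fun i => algebraMap M N (x i) + s * algebraMap M N (lam i)) F ≠ 0 := by
      rw [← pol_aeval]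
      exact fun h => hF1 (transcendental_iff.1 hs _ h)
    rw [h4, map_mul] at h0
    have h6 := ih a (by omega) _ (homogeneousComponent_isHomogeneous a G)
      ((mul_eq_zero.1 h0).resolve_right h5)
    rw [h6, zero_mul] at h4
    exact hne h4

/-- the main place -/
lemma main_place {F : MvPolynomial (Fin r) ℂ} (hF : F.IsHomogeneous 3) (hFi : Irreducible F)
    {x lam : Fin r → M} {s : N} (hx : aeval x F = 0)
    (hrel : ∀ (e : ℕ) (H : MvPolynomial (Fin r) ℂ), H.IsHomogeneous e → aeval x H = 0 → F ∣ H)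
    (hs : Transcendental M s) (htop : adjoin M {s} = ⊤) {A B : M} (hA : A ≠ 0)
    (hAB : pol x lam F = Polynomial.X * Polynomial.C A + Polynomial.X ^ 2 * Polynomial.C B)
    {z : Fin r → N} (hz : z = fun i => algebraMap M N (x i) + s * algebraMap M N (lam i)) :
    ∃ (O : ValuationSubring N) (ρ : O →+* M) (x₀ : Fin r → M), IsRes O ρ ∧ Over F z O ∧
      Red O ρ z x₀ ∧ (∀ a ∈ O.nonunits, ∀ j, z j ^ 3 * a / aeval z F ∈ O) ∧
      ratioField x₀ = ratioField x ∧ (∀ m : M, algebraMap M N m ∈ O) ∧ s ∈ O.nonunits := by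
  obtain ⟨O, ρ, h1, h2⟩ := exists_place hs htop
  have hM : ∀ m : M, ∃ hm : algebraMap M N m ∈ O, ρ ⟨_, hm⟩ = m := by
    intro m
    obtain ⟨h3, h4⟩ := h1 (Polynomial.C m) 1 (by simp)
    have h5 : Polynomial.aeval s (Polynomial.C m) / Polynomial.aeval s (1 : Polynomial M) =
        algebraMap M N m := by rw [Polynomial.aeval_C, map_one, div_one]
    refine ⟨by rw [← h5]; exact h3, ?_⟩
    rw [Polynomial.eval_C, Polynomial.eval_one, div_one] at h4
    conv_rhs => rw [← h4]
    congr 1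
    exact Subtype.ext h5.symm
  have hsurj : Function.Surjective ρ := fun m => ⟨_, (hM m).2⟩
  have hzX : ∀ H : MvPolynomial (Fin r) ℂ, aeval z H = Polynomial.aeval s (pol x lam H) := by
    intro H
    rw [pol_aeval, hz]
  obtain ⟨j⟩ := exists_idx hF hFi
  have hxj : x j ≠ 0 := fun h =>
    not_dvd_X hF hFi j (hrel 1 (X j) (isHomogeneous_X _ _) (by rw [aeval_X, h]))
  have hX : ∀ i, pol x lam (X i) = Polynomial.C (x i) + Polynomial.X * Polynomial.C (lam i) :=
    fun i => aeval_X _ i
  refine ⟨O, ρ, fun i => x i / x j, ⟨hsurj, ?_⟩, ?_, ?_, ?_, ratioField_div x hxj,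
    fun m => (hM m).1, ?_⟩
  · intro c h
    obtain ⟨h3, h4⟩ := hM (algebraMap ℂ M c)
    rw [← h4]
    congr 1
    exact Subtype.ext (IsScalarTower.algebraMap_apply ℂ M N c)
  · intro e H H' hH hH' hd
    have h3 : (pol x lam H).eval 0 ≠ 0 := by
      rw [pol_zero]
      exact fun h => hd (hrel e H hH h)
    obtain ⟨h4, h5⟩ := h1 (pol x lam H') (pol x lam H) h3
    rw [hzX, hzX]
    refine ⟨h4, ?_⟩
    rintro ⟨G, rfl⟩
    refine (res_zero ρ hsurj ⟨_, h4⟩).1 ?_
    rw [h5, pol_zero, map_mul, hx, zero_mul, zero_div]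
  · have hzi : ∀ i, z i = Polynomial.aeval s (pol x lam (X i)) := by
      intro i
      rw [← hzX, aeval_X]
    refine ⟨j, ?_, fun i => ?_⟩
    · intro h
      rw [hzi j] at h
      have h3 := transcendental_iff.1 hs _ h
      have h4 := congrArg (Polynomial.eval 0) h3
      rw [pol_zero, aeval_X, Polynomial.eval_zero] at h4
      exact hxj h4
    · obtain ⟨h4, h5⟩ := h1 (pol x lam (X i)) (pol x lam (X j)) (by rw [pol_zero, aeval_X]; exact hxj)
      have h6 : z i / z j = Polynomial.aeval s (pol x lam (X i)) /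
          Polynomial.aeval s (pol x lam (X j)) := by rw [hzi i, hzi j]
      refine ⟨by rw [h6]; exact h4, ?_⟩
      rw [pol_zero, pol_zero, aeval_X, aeval_X] at h5
      show x i / x j = _
      rw [← h5]
      congr 1
      exact Subtype.ext h6.symm
  · intro a ha k
    obtain ⟨g, h, h3, rfl⟩ := h2 a (ValuationSubring.nonunits_subset ha)
    obtain ⟨h4, h5⟩ := h1 g h h3
    have h6 : g.eval 0 = 0 := by
      have h7 := (res_zero ρ hsurj ⟨_, h4⟩).2 ha
      rw [h5, div_eq_zero_iff] at h7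
      exact h7.resolve_right h3
    obtain ⟨g', rfl⟩ : Polynomial.X ∣ g := Polynomial.X_dvd_iff.2 (by
      rw [Polynomial.coeff_zero_eq_eval_zero, h6])
    have h7 : (h * (Polynomial.C A + Polynomial.X * Polynomial.C B)).eval 0 ≠ 0 := by
      simp only [Polynomial.eval_mul, Polynomial.eval_add, Polynomial.eval_C, Polynomial.eval_X,
        zero_mul, add_zero]
      exact mul_ne_zero h3 hA
    obtain ⟨h8, -⟩ := h1 (pol x lam (X k) ^ 3 * g')
      (h * (Polynomial.C A + Polynomial.X * Polynomial.C B)) h7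
    have hs0 : s ≠ 0 := by
      rintro rfl
      exact hs (isAlgebraic_zero)
    have h9 : z k ^ 3 * (Polynomial.aeval s (Polynomial.X * g') / Polynomial.aeval s h) /
        aeval z F = Polynomial.aeval s (pol x lam (X k) ^ 3 * g') /
          Polynomial.aeval s (h * (Polynomial.C A + Polynomial.X * Polynomial.C B)) := by
      have h10 : Polynomial.X * Polynomial.C A + Polynomial.X ^ 2 * Polynomial.C B =
          Polynomial.X * (Polynomial.C A + Polynomial.X * Polynomial.C B) := by ring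
      rw [hzX F, hAB, h10, map_mul, map_mul, map_mul, map_mul, map_pow, ← hzX, aeval_X,
        Polynomial.aeval_X]
      have hne1 : Polynomial.aeval s h ≠ 0 := fun h0 => by
        rw [transcendental_iff.1 hs _ h0] at h3
        exact h3 Polynomial.eval_zero
      have hne2 : Polynomial.aeval s (Polynomial.C A + Polynomial.X * Polynomial.C B) ≠ 0 :=
        fun h0 => by
          have h11 := transcendental_iff.1 hs _ h0
          rw [h11, mul_zero] at h7
          exact h7 Polynomial.eval_zero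
      field_simp
    rw [h9]
    exact h8
  · obtain ⟨h4, h5⟩ := h1 Polynomial.X 1 (by simp)
    have h6 : Polynomial.aeval s Polynomial.X / Polynomial.aeval s (1 : Polynomial M) ∈
        O.nonunits := (res_zero ρ hsurj ⟨_, h4⟩).1 (by
      rw [h5, Polynomial.eval_X, zero_div])
    rwa [Polynomial.aeval_X, map_one, div_one] at h6

/-- the vectors `x` and `lam` are linearly independent -/
lemma exists_minor {F : MvPolynomial (Fin r) ℂ} (hF : F.IsHomogeneous 3) {x lam : Fin r → M}
    (hx : aeval x F = 0) {A B : M} (hA : A ≠ 0)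
    (hAB : pol x lam F = Polynomial.X * Polynomial.C A + Polynomial.X ^ 2 * Polynomial.C B)
    (hx0 : ∃ j, x j ≠ 0) : ∃ i k, x i * lam k - x k * lam i ≠ 0 := by
  by_contra hcon
  push Not at hcon
  obtain ⟨j, hj⟩ := hx0
  have h1 : ∀ c : M, c * A + c ^ 2 * B = 0 := by
    intro c
    have h2 := congrArg (Polynomial.eval c) hAB
    rw [pol_eval] at h2
    have h3 : (fun i => x i + c * lam i) = fun i => (1 + c * (lam j / x j)) * x i := by
      funext i
      have h4 := hcon i j
      field_simp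
      linear_combination (-c) * h4
    rw [h3, aeval_smul_form hF, hx, mul_zero] at h2
    simp only [Polynomial.eval_add, Polynomial.eval_mul, Polynomial.eval_X, Polynomial.eval_C,
      Polynomial.eval_pow] at h2
    exact h2.symm
  have h2 := h1 1
  have h3 := h1 (-1)
  have h4 : (algebraMap ℂ M 2) * A = 0 := by
    rw [map_ofNat]
    linear_combination h2 - h3
  rcases mul_eq_zero.1 h4 with h5 | h5
  · rw [map_eq_zero] at h5
    exact two_ne_zero h5
  · exact hA h5

end pencil

end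

end Pool.Agent.Y317.LI
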