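import Pool.Agent.Y317.LI.Pl

/-! # Project LI: transcendence degrees of fields of ratios -/

set_option autoImplicit false

namespace Pool.Agent.Y317.LI

open MvPolynomial Pool.Agent.TH314.PD IntermediateField Module Pool.Agent.Y201.LI
  Pool.Agent.Y929.LI

noncomputable section

open scoped IntermediateField.algebraAdjoinAdjoin in
lemma alg_adj (k : Type) [Field k] {E : Type} [Field E] [Algebra k E] (S : Set E)
    [h : Algebra.IsAlgebraic (IntermediateField.adjoin k S) E] :
    Algebra.IsAlgebraic (Algebra.adjoin k S) E :=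
  (IsFractionRing.comap_isAlgebraic_iff (A := Algebra.adjoin k S)
    (K := IntermediateField.adjoin k S)).2 h

/-- generators of the field of ratios -/
lemma ratioField_eq {K : Type} [Field K] [Algebra ℂ K] {r : ℕ} (x : Fin r → K) {j : Fin r}
    (hj : x j ≠ 0) :
    ratioField x = IntermediateField.adjoin ℂ (Set.range fun i : {i // i ≠ j} => x i / x j) := by
  set E := IntermediateField.adjoin ℂ (Set.range fun i : {i // i ≠ j} => x i / x j) with hE
  apply le_antisymm
  · have h1 : ∀ i, x i / x j ∈ E := by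
      intro i
      by_cases hi : i = j
      · rw [hi, div_self hj]
        exact one_mem _
      · exact IntermediateField.subset_adjoin _ _ ⟨⟨i, hi⟩, rfl⟩
    unfold ratioField
    rw [IntermediateField.adjoin_le_iff]
    rintro _ ⟨i, k, rfl⟩
    have h2 : x i / x k = (x i / x j) / (x k / x j) := by rw [div_div_div_cancel_right₀ hj]
    rw [SetLike.mem_coe, h2]
    exact div_mem (h1 i) (h1 k)
  · rw [hE, IntermediateField.adjoin_le_iff]
    rintro _ ⟨i, rfl⟩
    exact IntermediateField.subset_adjoin _ _ ⟨i, j, rfl⟩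

/-- homogenisation with respect to a variable -/
theorem exists_hmg {N : ℕ} (j0 : Fin N) (G : MvPolynomial (Fin N) ℂ) :
    ∃ (D : ℕ) (H : MvPolynomial (Fin N) ℂ), H.IsHomogeneous D ∧
      ∀ (R : Type) [Field R] [Algebra ℂ R] (v : Fin N → R), v j0 ≠ 0 →
        MvPolynomial.aeval v H = v j0 ^ D * MvPolynomial.aeval (fun j => v j / v j0) G := by
  refine ⟨G.totalDegree, ∑ k ∈ Finset.range (G.totalDegree + 1),
    MvPolynomial.X j0 ^ (G.totalDegree - k) * MvPolynomial.homogeneousComponent k G, ?_, ?_⟩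
  · refine MvPolynomial.IsHomogeneous.sum _ _ _ fun k hk => ?_
    have hk' : k ≤ G.totalDegree := Nat.lt_succ_iff.1 (Finset.mem_range.1 hk)
    have h1 := (MvPolynomial.isHomogeneous_X_pow (R := ℂ) j0 (G.totalDegree - k)).mul
      (MvPolynomial.homogeneousComponent_isHomogeneous k G)
    rwa [Nat.sub_add_cancel hk'] at h1
  · intro R _ _ v hv
    have h0 : MvPolynomial.aeval (fun j => v j / v j0) G =
        ∑ k ∈ Finset.range (G.totalDegree + 1), MvPolynomial.aeval (fun j => v j / v j0)
          (MvPolynomial.homogeneousComponent k G) := by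
      conv_lhs => rw [← MvPolynomial.sum_homogeneousComponent G]
      rw [map_sum]
    rw [map_sum, h0, Finset.mul_sum]
    refine Finset.sum_congr rfl fun k hk => ?_
    have hk' : k ≤ G.totalDegree := Nat.lt_succ_iff.1 (Finset.mem_range.1 hk)
    rw [map_mul, map_pow, MvPolynomial.aeval_X]
    have h2 := aeval_smul_form (MvPolynomial.homogeneousComponent_isHomogeneous k G) (v j0)
      (fun j => v j / v j0)
    have h3 : (fun l => v j0 * (v l / v j0)) = v := by
      funext l
      rw [mul_div_cancel₀ _ hv]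
    rw [h3] at h2
    rw [h2, ← mul_assoc, ← pow_add, Nat.sub_add_cancel hk']

lemma ai_transfer {K R : Type} [Field K] [Field R] [Algebra ℂ K] [Algebra ℂ R] {r : ℕ}
    (x : Fin r → K) (y : Fin r → R) (j : Fin r) (hx : x j ≠ 0) (hy : y j ≠ 0)
    (h : ∀ (e : ℕ) (H : MvPolynomial (Fin r) ℂ), H.IsHomogeneous e → aeval y H = 0 →
      aeval x H = 0)
    {τ : Type} (ι : τ → Fin r) (hai : AlgebraicIndependent ℂ fun a => x (ι a) / x j) :
    AlgebraicIndependent ℂ fun a => y (ι a) / y j := by
  rw [algebraicIndependent_iff] at hai ⊢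
  intro P hP
  obtain ⟨D, H, hH, h1⟩ := exists_hmg j (rename ι P)
  have h2 := h1 R y hy
  have h3 : aeval (fun i => y i / y j) (rename ι P) = aeval (fun a => y (ι a) / y j) P := by
    rw [aeval_rename]
    rfl
  rw [h3, hP, mul_zero] at h2
  have h4 := h D H hH h2
  rw [h1 K x hx] at h4
  have h5 := (mul_eq_zero.1 h4).resolve_left (pow_ne_zero _ hx)
  rw [aeval_rename] at h5
  exact hai P h5

lemma ai_gen {R : Type} [Field R] [Algebra ℂ R] {r : ℕ} (z : Fin r → R)
    (hz : ∀ (e : ℕ) (H : MvPolynomial (Fin r) ℂ), H.IsHomogeneous e → aeval z H = 0 → H = 0)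
    (j : Fin r) : AlgebraicIndependent ℂ fun i : {i // i ≠ j} => z i / z j := by
  classical
  have hj : z j ≠ 0 := by
    intro h
    exact X_ne_zero (R := ℂ) j (hz 1 (X j) (isHomogeneous_X _ _) (by rw [aeval_X, h]))
  let K := FractionRing (MvPolynomial {i // i ≠ j} ℂ)
  let x : Fin r → K := fun i =>
    if h : i = j then 1 else algebraMap (MvPolynomial {i // i ≠ j} ℂ) K (X ⟨i, h⟩)
  have hxj : x j = 1 := dif_pos rfl
  refine ai_transfer x z j (by rw [hxj]; exact one_ne_zero) hj
    (fun e H hH h0 => by rw [hz e H hH h0, map_zero]) (fun i : {i // i ≠ j} => i.1) ?_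
  have h1 : (fun i : {i // i ≠ j} => x i.1 / x j) = fun i : {i // i ≠ j} =>
      (algebraMap (MvPolynomial {i // i ≠ j} ℂ) K (X i) : K) := by
    funext i
    rw [hxj, div_one]
    exact dif_neg i.2
  rw [h1]
  exact (algebraicIndependent_X _ ℂ).map'
    (f := IsScalarTower.toAlgHom ℂ (MvPolynomial {i // i ≠ j} ℂ) K) (IsFractionRing.injective _ _)

lemma not_ai {K : Type} [Field K] [Algebra ℂ K] {r d : ℕ} {F : MvPolynomial (Fin r) ℂ}
    (hF : F.IsHomogeneous d) (hF0 : F ≠ 0) (x : Fin r → K) (j : Fin r) (hx : x j ≠ 0)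
    (h : aeval x F = 0) :
    ¬ AlgebraicIndependent ℂ fun i : {i // i ≠ j} => x i / x j := by
  classical
  intro hai
  rw [algebraicIndependent_iff] at hai
  let D : MvPolynomial (Fin r) ℂ →ₐ[ℂ] MvPolynomial {i // i ≠ j} ℂ :=
    aeval fun i => if h : i = j then 1 else X ⟨i, h⟩
  have hD : ∀ (R : Type) [Field R] [Algebra ℂ R] (v : Fin r → R), v j = 1 →
      aeval (fun i : {i // i ≠ j} => v i) (D F) = aeval v F := by
    intro R _ _ v hv
    rw [MvPolynomial.comp_aeval_apply]
    congr 2
    funext i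
    by_cases hi : i = j
    · rw [dif_pos hi, map_one, hi, hv]
    · rw [dif_neg hi, aeval_X]
  have h1 : D F = 0 := by
    apply hai
    rw [hD K (fun i => x i / x j) (div_self hx)]
    exact (aeval_div x hx hF).2 h
  have h2 : X j * F = 0 := by
    refine MvPolynomial.funext fun w => ?_
    by_cases hw : w j = 0
    · simp [hw]
    · have h3 := hD ℂ (fun i => w i / w j) (div_self hw)
      rw [h1, map_zero] at h3
      have h4 := (aeval_div w hw hF).1 h3.symm
      rw [map_mul, ← coe_aeval_eq_eval, RingHom.coe_coe, h4, mul_zero, map_zero]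
  exact mul_ne_zero (X_ne_zero j) hF0 h2

/-- finiteness of the field over the ratios of the coordinates of the generic point -/
lemma fin_z {M N : Type} [Field M] [Field N] [Algebra ℂ M] [Algebra M N] [Algebra ℂ N]
    [IsScalarTower ℂ M N] {r d : ℕ} {F : MvPolynomial (Fin r) ℂ} (hF : F.IsHomogeneous d)
    (hF0 : F ≠ 0) (x : Fin r → M) (z : Fin r → N) (s : N) (j : Fin r) (hj : x j ≠ 0)
    (hx : aeval x F = 0) [FiniteDimensional (ratioField x) M] (htop : adjoin M {s} = ⊤)
    (hz : ∀ (e : ℕ) (H : MvPolynomial (Fin r) ℂ), H.IsHomogeneous e → aeval z H = 0 → H = 0) :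
    FiniteDimensional (ratioField z) N := by
  have hzj : z j ≠ 0 := by
    intro h
    exact X_ne_zero (R := ℂ) j (hz 1 (X j) (isHomogeneous_X _ _) (by rw [aeval_X, h]))
  have h1 : Algebra.trdeg ℂ M < Cardinal.mk {i // i ≠ j} := by
    by_contra hle
    push Not at hle
    have halg : Algebra.IsAlgebraic
        (IntermediateField.adjoin ℂ (Set.range fun i : {i // i ≠ j} => x i / x j)) M := by
      rw [← ratioField_eq x hj]
      infer_instance
    have := alg_adj ℂ (Set.range fun i : {i // i ≠ j} => x i / x j)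
    exact not_ai hF hF0 x j hj hx
      (Algebra.IsAlgebraic.isTranscendenceBasis_of_le_trdeg_of_finite ℂ _ hle).1
  have h2 : Algebra.trdeg M N ≤ 1 := by
    have : Algebra.IsAlgebraic (IntermediateField.adjoin M {s}) N := by
      rw [htop]
      exact ⟨fun a => isAlgebraic_algebraMap (⟨a, mem_top⟩ : (⊤ : IntermediateField M N))⟩
    have := alg_adj M {s}
    refine (Algebra.IsAlgebraic.trdeg_le_cardinalMk M ({s} : Set N)).trans ?_
    simp
  have h3 : Algebra.trdeg ℂ N ≤ Cardinal.mk {i // i ≠ j} := by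
    rw [← _root_.trdeg_add_eq ℂ M]
    calc Algebra.trdeg ℂ M + Algebra.trdeg M N ≤ Algebra.trdeg ℂ M + 1 := by gcongr
      _ ≤ Order.succ (Algebra.trdeg ℂ M) := Cardinal.add_one_le_succ _
      _ ≤ _ := Order.succ_le_of_lt h1
  have h4 := ((ai_gen z hz j).isTranscendenceBasis_of_trdeg_le_of_finite h3).isAlgebraic_field
  rw [← ratioField_eq z hzj] at h4
  have h5 : Algebra.EssFiniteType ℂ (ratioField x) := by
    rw [IntermediateField.essFiniteType_iff, ratioField_eq x hj]
    exact IntermediateField.fg_adjoin_of_finite (Set.finite_range _)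
  have h6 : Algebra.EssFiniteType ℂ M := Algebra.EssFiniteType.comp ℂ (ratioField x) M
  have h7 : Algebra.EssFiniteType M N := by
    rw [← IntermediateField.fg_top_iff, ← htop]
    exact IntermediateField.fg_adjoin_of_finite (Set.finite_singleton s)
  have h8 : Algebra.EssFiniteType ℂ N := Algebra.EssFiniteType.comp ℂ M N
  have h9 : Algebra.EssFiniteType (ratioField z) N :=
    Algebra.EssFiniteType.of_comp ℂ (ratioField z) N
  exact Algebra.finite_of_essFiniteType_of_isAlgebraic

lemma trdeg_le {M κ : Type} [Field M] [Field κ] [Algebra ℂ M] [Algebra ℂ κ] {r : ℕ}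
    (x : Fin r → M) (y : Fin r → κ) (j : Fin r) (hx : x j ≠ 0) (hy : y j ≠ 0)
    (h : ∀ (e : ℕ) (H : MvPolynomial (Fin r) ℂ), H.IsHomogeneous e → aeval y H = 0 →
      aeval x H = 0)
    [FiniteDimensional (ratioField x) M] :
    Algebra.trdeg ℂ M ≤ Algebra.trdeg ℂ κ ∧ Algebra.trdeg ℂ M < Cardinal.aleph0 := by
  have halg : Algebra.IsAlgebraic
      (IntermediateField.adjoin ℂ (Set.range fun i : {i // i ≠ j} => x i / x j)) M := by
    rw [← ratioField_eq x hx]
    infer_instance
  have := alg_adj ℂ (Set.range fun i : {i // i ≠ j} => x i / x j)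
  obtain ⟨t, ht, hb⟩ := exists_isTranscendenceBasis_subset (R := ℂ) (A := M)
    (Set.range fun i : {i // i ≠ j} => x i / x j)
  have h1 : ∀ a : t, ∃ i : Fin r, (a : M) = x i / x j := fun a => by
    obtain ⟨i, hi⟩ := ht a.2
    exact ⟨i, hi.symm⟩
  choose ι hι using h1
  rw [← hb.cardinalMk_eq_trdeg]
  have h2 : AlgebraicIndependent ℂ fun a : t => x (ι a) / x j := by
    have h3 := hb.1
    convert h3 using 1
    funext a
    exact (hι a).symm
  refine ⟨(ai_transfer x y j hx hy h ι h2).cardinalMk_le_trdeg, ?_⟩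
  rw [Cardinal.lt_aleph0_iff_set_finite]
  exact (Set.finite_range _).subset ht

/-- a valuation ring whose residue field has the full transcendence degree is trivial -/
lemma eq_top_of_trdeg {M κ : Type} [Field M] [Field κ] [Algebra ℂ M] [Algebra ℂ κ]
    (O : ValuationSubring M) (ρ : O →+* κ) (hc : ∀ c : ℂ, algebraMap ℂ M c ∈ O)
    (hρ : ∀ c : ℂ, ρ ⟨_, hc c⟩ = algebraMap ℂ κ c) (hu : ∀ a : O, ρ a ≠ 0 → (a : M)⁻¹ ∈ O)
    (L : IntermediateField ℂ κ) (hL : ∀ l ∈ L, ∃ a, ρ a = l)
    (hfin : Algebra.trdeg ℂ M < Cardinal.aleph0)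
    (hle : Algebra.trdeg ℂ M ≤ Algebra.trdeg ℂ L) (m : M) : m ∈ O := by
  obtain ⟨S, hS⟩ := exists_isTranscendenceBasis ℂ L
  have h1 : ∀ i : S, ∃ a : O, ρ a = ((i : L) : κ) := fun i => hL _ (i : L).2
  choose a ha using h1
  let c0 : ℂ →+* O := (algebraMap ℂ M).codRestrict O.toSubring hc
  let ψ : MvPolynomial S ℂ →+* O := eval₂Hom c0 a
  have h2 : ∀ P, (ψ P : M) = aeval (fun i => (a i : M)) P := by
    intro P
    have h3 : (ψ P : M) = (O.subtype.comp ψ) P := rfl
    rw [h3]
    have h4 : O.subtype.comp ψ = (aeval (fun i => (a i : M)) : MvPolynomial S ℂ →ₐ[ℂ] M) := by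
      refine MvPolynomial.ringHom_ext (fun c => ?_) (fun i => ?_)
      · simp only [RingHom.comp_apply, ψ, coe_eval₂Hom, eval₂_C, RingHom.coe_coe, algHom_C]
        rfl
      · simp only [RingHom.comp_apply, ψ, coe_eval₂Hom, eval₂_X, RingHom.coe_coe, aeval_X]
        rfl
    rw [h4]
    rfl
  have h5 : ∀ P, ρ (ψ P) = ((aeval (fun i : S => (i : L)) P : L) : κ) := by
    intro P
    have h4 : ρ.comp ψ = (algebraMap L κ).comp
        (aeval (fun i : S => (i : L)) : MvPolynomial S ℂ →ₐ[ℂ] L).toRingHom := by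
      refine MvPolynomial.ringHom_ext (fun c => ?_) (fun i => ?_)
      · simp only [RingHom.comp_apply, ψ, coe_eval₂Hom, eval₂_C]
        refine (hρ c).trans ?_
        change _ = algebraMap L κ (aeval _ (C c))
        rw [aeval_C, ← IsScalarTower.algebraMap_apply]
      · simp only [RingHom.comp_apply, ψ, coe_eval₂Hom, eval₂_X]
        rw [ha]
        change _ = algebraMap L κ (aeval _ (X i))
        rw [aeval_X]
        rfl
    exact congrFun (congrArg DFunLike.coe h4) P
  have h6 : ∀ P, ρ (ψ P) = 0 → P = 0 := by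
    intro P hP
    rw [h5] at hP
    exact (algebraicIndependent_iff.1 hS.1) P (Subtype.ext hP)
  have h7 : AlgebraicIndependent ℂ (fun i => (a i : M)) := by
    rw [algebraicIndependent_iff]
    intro P hP
    apply h6
    rw [← h2] at hP
    have h8 : ψ P = 0 := Subtype.ext hP
    rw [h8, map_zero]
  have h8 := (h7.isTranscendenceBasis_of_trdeg_le hfin
    (by rw [hS.cardinalMk_eq_trdeg]; exact hle)).isAlgebraic_field
  have h9 : ∀ e ∈ IntermediateField.adjoin ℂ (Set.range fun i => (a i : M)), e ∈ O := by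
    intro e he
    obtain ⟨P, Q, rfl⟩ := (IntermediateField.mem_adjoin_range_iff ℂ _ e).1 he
    by_cases hQ : aeval (fun i => (a i : M)) Q = 0
    · rw [hQ, div_zero]
      exact O.zero_mem
    · have h10 : ρ (ψ Q) ≠ 0 := by
        intro h11
        rw [h6 Q h11, map_zero] at hQ
        exact hQ rfl
      rw [div_eq_mul_inv, ← h2, ← h2]
      exact O.mul_mem _ _ (ψ P).2 (hu _ h10)
  have h10 : IsIntegral (IntermediateField.adjoin ℂ (Set.range fun i => (a i : M))) m :=
    (Algebra.IsAlgebraic.isAlgebraic m).isIntegral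
  let φ : IntermediateField.adjoin ℂ (Set.range fun i => (a i : M)) →+* O :=
    (algebraMap _ M).codRestrict O.toSubring fun e => h9 _ e.2
  have h11 : IsIntegral O ((RingHom.id M) m) :=
    IsIntegral.map_of_comp_eq φ (RingHom.id M) (by ext; rfl) h10
  obtain ⟨y, hy⟩ := IsIntegrallyClosed.isIntegral_iff.1 h11
  rw [RingHom.id_apply] at hy
  rw [← hy]
  exact y.2

end

end Pool.Agent.Y317.LI
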